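import Pool.Agent.U180.NG.Stm

/-! Package BLK of project NG (helper180): one dyadic block of the circle (helper312). -/

set_option autoImplicit false

open Pool.Agent.H469R2.NK (e)

namespace Pool.Agent.U312.NG

open Pool.Agent.U180.NG

/-- the circle -/
noncomputable def f (R t : ℝ) : ℝ := Real.sqrt (R ^ 2 - t ^ 2)

theorem f_sq {R t : ℝ} (h0 : 0 ≤ t) (h1 : t ≤ R) : f R t ^ 2 = R ^ 2 - t ^ 2 := by
  unfold f
  apply Real.sq_sqrt
  nlinarith

theorem f_anti {R t u : ℝ} (h0 : 0 ≤ t) (h1 : t ≤ u) : f R u ≤ f R t := by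
  unfold f
  apply Real.sqrt_le_sqrt
  nlinarith

theorem f_low {R T t : ℝ} (hT : 0 < T) (hTR : T ≤ R) (h0 : 0 ≤ t) (h1 : t ≤ R - T) :
    Real.sqrt T * Real.sqrt R ≤ f R t := by
  rw [← Real.sqrt_mul hT.le]
  unfold f
  apply Real.sqrt_le_sqrt
  nlinarith

theorem first {R T t : ℝ} (hT : 0 < T) (hTR : T ≤ R) (h0 : 0 ≤ t) (h1 : t + 1 ≤ R - T) :
    0 ≤ f R t - f R (t + 1) ∧ f R t - f R (t + 1) ≤ Real.sqrt (R / T) := by
  have hR : 0 < R := by linarith
  obtain ⟨p, hp⟩ : ∃ p, p = Real.sqrt T := ⟨_, rfl⟩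
  obtain ⟨r, hr⟩ : ∃ r, r = Real.sqrt R := ⟨_, rfl⟩
  have hp0 : 0 < p := by rw [hp]; exact Real.sqrt_pos.2 hT
  have hr0 : 0 < r := by rw [hr]; exact Real.sqrt_pos.2 hR
  have hr2 : r ^ 2 = R := by rw [hr]; exact Real.sq_sqrt hR.le
  have hA2 := f_sq h0 (by linarith : t ≤ R)
  have hB2 := f_sq (by linarith : (0 : ℝ) ≤ t + 1) (by linarith : t + 1 ≤ R)
  have hAB := f_anti (R := R) h0 (by linarith : t ≤ t + 1)
  have hB := f_low hT hTR (by linarith : (0 : ℝ) ≤ t + 1) h1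
  rw [← hp, ← hr] at hB
  obtain ⟨A, hA⟩ : ∃ A, A = f R t := ⟨_, rfl⟩
  obtain ⟨B, hBd⟩ : ∃ B, B = f R (t + 1) := ⟨_, rfl⟩
  rw [← hA] at hA2 hAB ⊢
  rw [← hBd] at hB2 hAB hB ⊢
  refine ⟨by linarith, ?_⟩
  have hq : Real.sqrt (R / T) = r / p := by rw [Real.sqrt_div hR.le, ← hr, ← hp]
  rw [hq, le_div_iff₀ hp0]
  have h2 : (A - B) * (A + B) = 2 * t + 1 := by nlinarith
  have hpr : 0 < p * r := mul_pos hp0 hr0
  have h3 : (A - B) * (2 * (p * r)) ≤ (A - B) * (A + B) :=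
    mul_le_mul_of_nonneg_left (by linarith) (by linarith)
  have h4 : ((A - B) * p) * r ≤ r * r := by nlinarith
  exact le_of_mul_le_mul_right h4 hr0

theorem second {R T t : ℝ} (hT : 0 < T) (hTR : T ≤ R) (h0 : 0 ≤ t) (h1 : t + 2 ≤ R - T)
    (h2 : R - 2 * T ≤ t) :
    R ^ 2 / (8 * (Real.sqrt T * Real.sqrt R) ^ 3) ≤
      (f R (t + 1) - f R t) - (f R (t + 2) - f R (t + 1)) := by
  have hR : 0 < R := by linarith
  obtain ⟨s, hs⟩ : ∃ s, s = Real.sqrt T * Real.sqrt R := ⟨_, rfl⟩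
  have hs0 : 0 < s := by
    rw [hs]
    exact mul_pos (Real.sqrt_pos.2 hT) (Real.sqrt_pos.2 hR)
  have hs2 : s ^ 2 = T * R := by rw [hs, mul_pow, Real.sq_sqrt hT.le, Real.sq_sqrt hR.le]
  have hA2 := f_sq h0 (by linarith : t ≤ R)
  have hB2 := f_sq (by linarith : (0 : ℝ) ≤ t + 1) (by linarith : t + 1 ≤ R)
  have hC2 := f_sq (by linarith : (0 : ℝ) ≤ t + 2) (by linarith : t + 2 ≤ R)
  have hAB := f_anti (R := R) h0 (by linarith : t ≤ t + 1)
  have hBC := f_anti (R := R) (by linarith : (0 : ℝ) ≤ t + 1) (by linarith : t + 1 ≤ t + 2)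
  have hC := f_low hT hTR (by linarith : (0 : ℝ) ≤ t + 2) h1
  rw [← hs] at hC ⊢
  obtain ⟨A, hA⟩ : ∃ A, A = f R t := ⟨_, rfl⟩
  obtain ⟨B, hBd⟩ : ∃ B, B = f R (t + 1) := ⟨_, rfl⟩
  obtain ⟨C, hCd⟩ : ∃ C, C = f R (t + 2) := ⟨_, rfl⟩
  rw [← hA] at hA2 hAB ⊢
  rw [← hBd] at hB2 hAB hBC ⊢
  rw [← hCd] at hC2 hBC hC ⊢
  have hC0 : 0 < C := by linarith
  have hB0 : 0 < B := by linarith
  have hA0 : 0 < A := by linarith
  have e1 : A - B = (2 * t + 1) / (A + B) := by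
    rw [eq_div_iff (by positivity)]
    nlinarith
  have e2 : B - C = (2 * t + 3) / (B + C) := by
    rw [eq_div_iff (by positivity)]
    nlinarith
  have e3 : A - C = (4 * t + 4) / (A + C) := by
    rw [eq_div_iff (by positivity)]
    nlinarith
  have e4 : (B - A) - (C - B) = 2 / (A + B) + (2 * t + 3) * (A - C) / ((A + B) * (B + C)) := by
    have : (B - A) - (C - B) = (B - C) - (A - B) := by ring
    rw [this, e2, e1]
    field_simp
    ring
  rw [e4, e3]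
  have h3 : 1 / A ≤ 2 / (A + B) := by
    rw [div_le_div_iff₀ hA0 (by positivity)]
    linarith
  have h4 : t ^ 2 / A ^ 3 ≤ (2 * t + 3) * ((4 * t + 4) / (A + C)) / ((A + B) * (B + C)) := by
    have h5 : (2 * t + 3) * ((4 * t + 4) / (A + C)) / ((A + B) * (B + C)) =
        (2 * t + 3) * (4 * t + 4) / ((A + C) * ((A + B) * (B + C))) := by
      field_simp
    rw [h5]
    have h6 : (A + C) * ((A + B) * (B + C)) ≤ 8 * A ^ 3 := by
      have a1 : A + C ≤ 2 * A := by linarith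
      have a2 : A + B ≤ 2 * A := by linarith
      have a3 : B + C ≤ 2 * A := by linarith
      calc (A + C) * ((A + B) * (B + C)) ≤ (2 * A) * ((2 * A) * (2 * A)) := by gcongr
        _ = 8 * A ^ 3 := by ring
    calc t ^ 2 / A ^ 3 = (8 * t ^ 2) / (8 * A ^ 3) := by
          rw [mul_div_mul_left _ _ (by norm_num)]
      _ ≤ ((2 * t + 3) * (4 * t + 4)) / (8 * A ^ 3) := by
          apply div_le_div_of_nonneg_right _ (by positivity)
          nlinarith
      _ ≤ _ := by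
          apply div_le_div_of_nonneg_left _ (by positivity) h6
          positivity
  have h7 : R ^ 2 / A ^ 3 = 1 / A + t ^ 2 / A ^ 3 := by
    have : R ^ 2 = A ^ 2 + t ^ 2 := by linarith
    rw [this]
    field_simp
  have h8 : A ≤ 2 * s := by
    have : A ^ 2 ≤ (2 * s) ^ 2 := by
      rw [mul_pow, hs2, hA2]
      nlinarith
    exact le_of_sq_le_sq this (by positivity)
  have h9 : R ^ 2 / (8 * s ^ 3) ≤ R ^ 2 / A ^ 3 := by
    apply div_le_div_of_nonneg_left (by positivity) (by positivity)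
    calc A ^ 3 ≤ (2 * s) ^ 3 := pow_le_pow_left₀ hA0.le h8 3
      _ = 8 * s ^ 3 := by ring
  linarith

theorem t_BLK (h : S_VDC) : S_BLK := by
  intro k N R T a hk hT hTR ha haR hN
  have hT0 : 0 < T := by linarith
  have hR : 0 < R := by linarith
  have hk0 : (0 : ℝ) < k := by
    have : 0 < k := hk
    exact_mod_cast this
  obtain ⟨p, hp⟩ : ∃ p, p = Real.sqrt T := ⟨_, rfl⟩
  obtain ⟨r, hr⟩ : ∃ r, r = Real.sqrt R := ⟨_, rfl⟩
  have hp0 : 0 < p := by rw [hp]; exact Real.sqrt_pos.2 hT0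
  have hr0 : 0 < r := by rw [hr]; exact Real.sqrt_pos.2 hR
  have hr2 : r ^ 2 = R := by rw [hr]; exact Real.sq_sqrt hR.le
  obtain ⟨lam, hlam⟩ : ∃ lam, lam = k * (R ^ 2 / (8 * (p * r) ^ 3)) := ⟨_, rfl⟩
  have hlam0 : 0 < lam := by rw [hlam]; positivity
  obtain ⟨D, hD⟩ : ∃ D, D = k * Real.sqrt (R / T) := ⟨_, rfl⟩
  have hD0 : 0 ≤ D := by rw [hD]; positivity
  have hmain := h (fun n => k * f R (a + n)) N lam D (-D) hlam0 hD0 (by
    intro n hn
    have hn' : (n : ℝ) + 2 + 1 ≤ N := by exact_mod_cast hn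
    have hn0 : (0 : ℝ) ≤ n := Nat.cast_nonneg n
    have h1 := second hT0 hTR (by linarith : (0 : ℝ) ≤ a + n) (by linarith) (by linarith)
    rw [← hp, ← hr] at h1
    have c1 : a + ((n + 1 : ℕ) : ℝ) = a + n + 1 := by push_cast; ring
    have c2 : a + ((n + 2 : ℕ) : ℝ) = a + n + 2 := by push_cast; ring
    simp only [c1, c2]
    rw [hlam]
    calc (k : ℝ) * (R ^ 2 / (8 * (p * r) ^ 3)) ≤
        k * ((f R (a + n + 1) - f R (a + n)) - (f R (a + n + 2) - f R (a + n + 1))) :=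
          mul_le_mul_of_nonneg_left h1 hk0.le
      _ = _ := by ring) (by
    intro n hn
    have hn' : (n : ℝ) + 1 + 1 ≤ N := by exact_mod_cast hn
    have hn0 : (0 : ℝ) ≤ n := Nat.cast_nonneg n
    have h1 := first hT0 hTR (by linarith : (0 : ℝ) ≤ a + n) (by linarith)
    have c1 : a + ((n + 1 : ℕ) : ℝ) = a + n + 1 := by push_cast; ring
    simp only [c1]
    have h2 : (k : ℝ) * (f R (a + n) - f R (a + n + 1)) ≤ D := by
      rw [hD]
      exact mul_le_mul_of_nonneg_left h1.2 hk0.le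
    have h3 : 0 ≤ (k : ℝ) * (f R (a + n) - f R (a + n + 1)) := mul_nonneg hk0.le h1.1
    constructor <;> linarith)
  have hlast : 1 / Real.sqrt lam ≤ 3 * T ^ (3 / 4 : ℝ) / (Real.sqrt k * R ^ (1 / 4 : ℝ)) := by
    have g1 : 1 / Real.sqrt lam = Real.sqrt (1 / lam) := by
      rw [Real.sqrt_div zero_le_one, Real.sqrt_one]
    rw [g1]
    apply Real.sqrt_le_iff.2
    refine ⟨by positivity, ?_⟩
    have g2 : (T ^ (3 / 4 : ℝ)) ^ 2 = p ^ 3 := by
      rw [hp, Real.sqrt_eq_rpow, ← Real.rpow_natCast, ← Real.rpow_mul hT0.le,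
        ← Real.rpow_natCast, ← Real.rpow_mul hT0.le]
      norm_num
    have g3 : (R ^ (1 / 4 : ℝ)) ^ 2 = r := by
      rw [hr, Real.sqrt_eq_rpow, ← Real.rpow_natCast, ← Real.rpow_mul hR.le]
      norm_num
    have g4 : Real.sqrt k ^ 2 = (k : ℝ) := Real.sq_sqrt hk0.le
    rw [div_pow, mul_pow, mul_pow, g2, g3, g4, hlam]
    have g5 : 1 / ((k : ℝ) * (R ^ 2 / (8 * (p * r) ^ 3))) = 8 * p ^ 3 / (k * r) := by
      rw [← hr2]
      field_simp
    rw [g5]
    apply div_le_div_of_nonneg_right _ (by positivity)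
    have : 0 < p ^ 3 := by positivity
    linarith
  rw [← hD]
  refine hmain.trans ?_
  apply mul_le_mul_of_nonneg_left _ (by positivity)
  linarith

end Pool.Agent.U312.NG
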